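import Pool.Agent.Lib.MP_ba2ef4_al.Main

set_option autoImplicit false

/-!
# Core-free permutable p-subgroups of finitely generated groups

Let `p` be a prime, `G` a finitely generated group and `H` a core-free permutable `p`-subgroup.
We show that for every `g ∈ G` there is `k` such that `g ^ (p ^ k * (p - 1))` centralizes the normal
closure `H^G`.  For `p = 2` this says that `G / C_G(H^G)` is a `2`-group.
-/

open scoped Pointwise

namespace Pool.Agent.Results.MP_ba2ef4_al.OrdersDividePPred

theorem result {G : Type*} [Group G] (p : ℕ) (hp : p.Prime) (hfg : Group.FG G)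
    (H : Subgroup G) (hpg : IsPGroup p H) (hcore : H.normalCore = ⊥)
    (hperm : ∀ K : Subgroup G, (H : Set G) * (K : Set G) = (K : Set G) * (H : Set G)) (g : G) :
    ∃ k : ℕ, g ^ (p ^ k * (p - 1)) ∈
      Subgroup.centralizer (Subgroup.normalClosure (H : Set G) : Set G) := by
  have : Fact p.Prime := ⟨hp⟩
  exact Pool.Agent.Lib.MP_ba2ef4_al.main hfg hpg hcore hperm g

end Pool.Agent.Results.MP_ba2ef4_al.OrdersDividePPred
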